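import Pool.Agent.Run7.h152.PC.Defs
import Pool.Agent.Run7.h152.PW.All
import Pool.Agent.Run7.h152.DR.Bridge

/-!
# The injectivity conjecture implies the conjecture D for products of varieties with conjugations
-/

set_option autoImplicit false

open CategoryTheory AlgebraicGeometry Polynomial

universe u v u' v'

namespace Run7.h152.PC

open Pool.Agent.H914 Pool.Agent.H914.VarClass Pool.Agent.H914.VarClass.Obj
  Pool.Agent.H914.WeilCohomology Pool.Agent.R908 Run7.h152.LI Run7.h152.DR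

variable {k : Type u} [Field k] {𝒱 : VarClass k} {ops : CycleOps 𝒱}
  {W : WeilCohomology.{u, v} ops} {X Y Z : 𝒱.Obj} {𝒢 : Set (Sym W)} {𝒴 : Set 𝒱.Obj} {D : X.Cycles}

theorem LefschetzType.hardLefschetz (h : LefschetzType W X D) : HardLefschetz W X D :=
  h.lef.hardLef

theorem LefschetzType.lefschetzB (h : LefschetzType W X D) : LefschetzB W X D := by
  refine (((lefschetzB_tfae h.div h.hardLefschetz).out 0 2)).2 ?_
  intro c hc
  obtain ⟨z, hz, hinj⟩ := h.inj c hc
  refine ⟨W.cl (X.prod X) z, Submodule.subset_span ⟨X.dim - c, by push_cast [hc]; ring, z, hz, rfl⟩,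
    ?_⟩
  intro x hx h0
  rw [corrC_eq] at h0
  exact hinj x hx h0

theorem HasConj.hasConjugation (h : HasConj W 𝒢 X) :
    PW.HasConjugation (Sym.toSymmetry '' 𝒢) X := by
  obtain ⟨D, hD, e, P, Q, he⟩ := h
  obtain ⟨z, hz, hez⟩ := he.alg
  obtain rfl : e = W.corr (W.cl (X.prod X) z) := by
    apply LinearMap.ext
    intro a
    rw [hez, corrC_eq]
  refine ⟨D, z, P, Q, hD.div, hD.hardLefschetz, hD.lefschetzB, hz, he.comm,
    ⟨⟨he.sqf, he.conj⟩, he.adj.1, ?_⟩, ?_⟩
  · intro x hx y hy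
    have h1 := he.adj.2 x hx y hy
    rw [one_mul, one_mul] at h1
    exact h1
  · intro i f hf _ U hU h1 h2 h3
    refine he.irr i f hf U hU ?_ h3
    rintro φ (⟨z', hz', rfl⟩ | ⟨S, hS, rfl⟩) x hx
    · rw [← corrC_eq]
      exact h1 _ ⟨z', hz', rfl⟩ x hx
    · exact h2 _ ⟨S.toSymmetry, ⟨S, hS, rfl⟩, rfl⟩ x hx

theorem isConjugationAbelian (h : IsAbVar W 𝒢 X) :
    PW.IsConjugationAbelian (Sym.toSymmetry '' 𝒢) X := by
  obtain ⟨m, D, e, P, Q, h1, h2⟩ := h
  exact ⟨m, D, e, P, Q, h1.isAbelianType, h2.isRosati, h2.irreducible⟩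

lemma powTimes_eq (X Y : 𝒱.Obj) (n : ℕ) : powTimes X Y n = pX X Y n := by
  induction n with
  | zero => rfl
  | succ n ih => exact congrArg (fun Z => X.prod Z) ih

lemma homNumAt_iff {j : ℕ} : HomNumAt W X j ↔ HomEqNumAt W X j :=
  ⟨fun h z hz => h hz.1 z hz.2.1 hz.2.2, fun h hj z hz hw => h z ⟨hj, hz, hw⟩⟩

lemma tateInjective_iff {j : ℕ} : TateInjective W X j ↔ InjectiveAt W X j := by
  refine ⟨fun h => h.injectiveAt, fun h r z hz hq => ?_⟩
  have h1 := h r z hz (by
    intro q hq0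
    refine hq q ?_
    rw [map_sum] at hq0
    rw [← hq0, comb]
    apply Finset.sum_congr rfl
    intro i _
    rw [W.cl_smul]
    rfl)
  intro c hc
  rw [Fintype.linearIndependent_iff] at h1
  exact h1 c hc

lemma conjD_iff : ConjD W X ↔ HomEqNum W X := by
  rw [PW.homEqNum_iff]
  exact forall_congr' fun j => homNumAt_iff

/-- The injectivity conjecture lifts from reductions. -/
theorem GoodReduction.tateInjective {j : ℕ} (h : GoodReduction.{u, v, u', v'} W X j) :
    TateInjective W X j := by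
  obtain ⟨k₀, _, 𝒱₀, ops₀, W₀, X₀, hsp, h1⟩ := h
  have hI : TateInjective W₀ X₀ j := by
    rcases h1 with h1 | h1
    · exact tateInjective_iff.2 (injectiveAt_of_homEqNumAt (homNumAt_iff.1 h1))
    · exact h1
  intro r z hz hq c hc i
  obtain ⟨s, z₀, hz₀, hrel⟩ := hsp r z hz
  have h2 := (hrel c).1 hc
  have h3 := hI r z₀ hz₀ (fun q hq0 => by
    refine hq q ((hrel fun i => (q i : W.K)).2 ?_)
    simpa only [map_ratCast] using hq0) (fun i => s (c i)) h2 i
  exact s.injective (by rw [h3, map_zero])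

end Run7.h152.PC
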