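import Mathlib.LinearAlgebra.Semisimple
import Mathlib.LinearAlgebra.LinearPMap
import Mathlib.Algebra.Module.Submodule.RestrictScalars

/-!
# The commutant of a semisimple operator
-/

set_option autoImplicit false

open Polynomial

namespace Run7.h152.PC

variable {K V : Type*} [Field K] [AddCommGroup V] [Module K V]

lemma coe_aeval_restrict {T : Submodule K V} {F : Module.End K V} (hF : ∀ x ∈ T, F x ∈ T)
    (P : K[X]) (x : T) : ((aeval (F.restrict hF) P x : T) : V) = aeval F P (x : V) := by
  induction P using Polynomial.induction_on' generalizing x with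
  | add p q hp hq =>
    rw [map_add, map_add, LinearMap.add_apply, LinearMap.add_apply, Submodule.coe_add, hp, hq]
  | monomial n a =>
    induction n generalizing x with
    | zero =>
      rw [monomial_zero_left, aeval_C, aeval_C, Module.algebraMap_end_apply,
        Module.algebraMap_end_apply, Submodule.coe_smul]
    | succ n ih =>
      have h1 : aeval (F.restrict hF) (monomial (n + 1) a) x =
          aeval (F.restrict hF) (monomial n a) (F.restrict hF x) := by
        rw [← monomial_mul_X, map_mul, aeval_X, Module.End.mul_apply]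
      have h2 : aeval F (monomial (n + 1) a) (x : V) = aeval F (monomial n a) (F x) := by
        rw [← monomial_mul_X, map_mul, aeval_X, Module.End.mul_apply]
      rw [h1, h2, ih]
      rfl

/-- **The commutant of a semisimple operator acts transitively on the kernels.** -/
theorem exists_commuting (T : Submodule K V) (F : Module.End K V) (hF : ∀ x ∈ T, F x ∈ T)
    {P : K[X]} (hP : Squarefree P) (hP0 : ∀ x ∈ T, aeval F P x = 0) {f : K[X]}
    (hf : Irreducible f) {x y : V} (hx : x ∈ T) (hx0 : x ≠ 0) (hfx : aeval F f x = 0)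
    (hy : y ∈ T) (hfy : aeval F f y = 0) :
    ∃ φ : Module.End K V, (∀ a ∈ T, φ a ∈ T ∧ φ (F a) = F (φ a)) ∧ φ x = y := by
  classical
  set G : Module.End K T := F.restrict hF with hG
  have hss : G.IsSemisimple := by
    refine Module.End.isSemisimple_of_squarefree_aeval_eq_zero hP ?_
    apply LinearMap.ext
    intro a
    apply Subtype.ext
    rw [coe_aeval_restrict hF P a, hP0 a a.2]
    rfl
  have hssm : IsSemisimpleModule K[X] (Module.AEval' G) := hss
  -- the module
  let of := Module.AEval.of K T G
  have hsm : ∀ (g : K[X]) (a : T), g • of a = of (aeval G g a) := fun g a =>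
    (Module.AEval.of_aeval_smul (a := G) g a).symm
  set x' : T := ⟨x, hx⟩ with hx'
  set y' : T := ⟨y, hy⟩ with hy'
  have hx'0 : x' ≠ 0 := fun h => hx0 (congrArg Subtype.val h)
  have hfx' : f • of x' = 0 := by
    rw [hsm]
    have : aeval G f x' = 0 := Subtype.ext (by rw [coe_aeval_restrict]; exact hfx)
    rw [this, map_zero]
  have hfy' : f • of y' = 0 := by
    rw [hsm]
    have : aeval G f y' = 0 := Subtype.ext (by rw [coe_aeval_restrict]; exact hfy)
    rw [this, map_zero]
  have key : ∀ c : K[X], c • of x' = 0 → c • of y' = 0 := by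
    intro c hc
    by_cases hdvd : f ∣ c
    · obtain ⟨d, rfl⟩ := hdvd
      rw [mul_comm, mul_smul, hfy', smul_zero]
    · exfalso
      have hcop : IsCoprime f c := (hf.coprime_iff_not_dvd).2 hdvd
      obtain ⟨a, b, hab⟩ := hcop
      have h1 : (1 : K[X]) • of x' = 0 := by
        rw [← hab, add_smul, mul_smul, mul_smul, hfx', hc, smul_zero, smul_zero, add_zero]
      rw [one_smul] at h1
      exact hx'0 (of.injective (by rw [h1, map_zero]))
  let p := LinearPMap.mkSpanSingleton' (σ := RingHom.id K[X]) (of x') (of y') key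
  obtain ⟨h, hh⟩ := IsSemisimpleModule.extension_property (R := K[X]) (N := p.domain)
    (M := Module.AEval K T G) (P := Module.AEval K T G) p.domain.subtype
    p.domain.subtype_injective p.toFun
  have hhx : h (of x') = of y' := by
    have hm : of x' ∈ p.domain := Submodule.mem_span_singleton_self _
    have h1 := congrArg (fun g => g ⟨of x', hm⟩) hh
    have h2 : p ⟨of x', hm⟩ = of y' := by
      have e1 : (⟨of x', hm⟩ : p.domain) =
          ⟨(1 : K[X]) • of x', by rw [one_smul]; exact hm⟩ := Subtype.ext (one_smul _ _).symm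
      rw [e1]
      exact (LinearPMap.mkSpanSingleton'_apply (σ := RingHom.id K[X]) (of x') (of y') key 1
        _).trans (by rw [map_one, one_smul])
    exact h1.trans h2
  -- the operator
  obtain ⟨s, hs⟩ := LinearMap.exists_leftInverse_of_injective T.subtype (T.ker_subtype)
  have hsT : ∀ a : T, s a = a := fun a => congrArg (fun g => g a) hs
  let φ₀ : T →ₗ[K] T := of.symm.toLinearMap ∘ₗ (h.restrictScalars K) ∘ₗ of.toLinearMap
  refine ⟨T.subtype ∘ₗ φ₀ ∘ₗ s, ?_, ?_⟩
  · intro a ha
    refine ⟨Subtype.mem _, ?_⟩
    have h1 : s (F a) = G ⟨a, ha⟩ := by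
      have := hsT (G ⟨a, ha⟩)
      exact this
    have h2 : s a = ⟨a, ha⟩ := hsT ⟨a, ha⟩
    have h3 : φ₀ (G ⟨a, ha⟩) = G (φ₀ ⟨a, ha⟩) := by
      apply of.injective
      change of (of.symm (h (of (G ⟨a, ha⟩)))) = of (G (of.symm (h (of ⟨a, ha⟩))))
      have h4 : of (G ⟨a, ha⟩) = (X : K[X]) • of ⟨a, ha⟩ := by rw [hsm, aeval_X]
      rw [LinearEquiv.apply_symm_apply, h4, map_smul]
      have h5 := hsm X (of.symm (h (of ⟨a, ha⟩)))
      rw [aeval_X, LinearEquiv.apply_symm_apply] at h5
      exact h5
    change (φ₀ (s (F a)) : V) = F (φ₀ (s a) : V)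
    rw [h1, h2, h3]
    rfl
  · change (φ₀ (s x) : V) = y
    rw [show s x = x' from hsT x']
    change ((of.symm (h (of x')) : T) : V) = y
    rw [hhx, LinearEquiv.symm_apply_apply]

end Run7.h152.PC
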