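import Pool.Agent.Run7.h152.DR.AbDefs
import Pool.Agent.H914R2.DDefs

/-!
# Varieties with an algebraic complex conjugation, and reductions: definitions
-/

set_option autoImplicit false

open CategoryTheory AlgebraicGeometry Polynomial

universe u v u' v'

namespace Run7.h152.PC

open Pool.Agent.H914 Pool.Agent.H914.VarClass Pool.Agent.H914.VarClass.Obj
  Pool.Agent.H914.WeilCohomology Run7.h152.DR

section Lin

variable {K : Type*} [Field K] {B : Type*} [Ring B] [Algebra K B]

/-- The operator `e` is the map `g`. -/
def EqMap (e : Module.End K B) (g : B → B) : Prop := ∀ a, e a = g a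

/-- The operator `e` commutes with the multiplication by `d`. -/
def CommutesMul (e : Module.End K B) (d : B) : Prop := ∀ a, e (d * a) = d * e a

/-- `P` is squarefree, its complex roots `z` satisfy `‖z‖ ^ 2 = w`, and `P(e) = 0` on the
subspace `T`. -/
def WeilOn [CharZero K] (T : Submodule K B) (e : Module.End K B) (P : ℚ[X]) (w : ℕ) : Prop :=
  (Squarefree P ∧ ∀ z : ℂ, aeval z P = 0 → ‖z‖ ^ 2 = w) ∧ ∀ x ∈ T, evalQ P e x = 0

/-- Each operator which preserves the subspace `T` and commutes with `e` on `T` agrees on `T` with a
linear combination of operators in `C`. -/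
def CommutantSpanned (T : Submodule K B) (e : Module.End K B) (C : Set (B → B)) : Prop :=
  ∀ φ : Module.End K B, (∀ x ∈ T, φ x ∈ T ∧ φ (e x) = e (φ x)) →
    ∃ (r : ℕ) (c : Fin r → K) (g : Fin r → B → B), (∀ i, g i ∈ C) ∧
      ∀ x ∈ T, φ x = comb c fun i => g i x

end Lin

variable {k : Type u} [Field k] {𝒱 : VarClass k} {ops : CycleOps 𝒱}

/-- Hard Lefschetz and the conjecture of Lefschetz type (conjecture B) hold for `X` and the divisor
`D`, the latter in the following equivalent form: for `c ≤ dim X` there is a cycle on `X × X` which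
induces an injective map from `H^(dim X + c)(X)` to `H^(dim X - c)(X)`. -/
structure LefschetzType (W : WeilCohomology.{u, v} ops) (X : 𝒱.Obj) (D : X.Cycles) : Prop where
  div : X.IsCyc 1 D
  lef : HardLefs (W.gr X) X.dim (clC W D)
  inj : ∀ c ≤ X.dim, ∃ z, (X.prod X).IsCyc (X.dim - c) z ∧
    ∀ a ∈ W.gr X (X.dim + c), corrC W z a = 0 → a = 0

/-- The operator `e` on the cohomology of `X` is the operator of a cycle of codimension `dim X` on
`X × X` and commutes with the multiplication by the class of the divisor `D`; `P(e) = 0`, and the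
transpose of `e` is `Q(e)`, for polynomials `P`, `Q` with rational coefficients, where `P` is squarefree
and `Q(z)` is the complex conjugate of `z` for the complex roots `z` of `P`; and for each `i` and each
irreducible polynomial `f` over the coefficient field the kernel of `f(e)` on `H^i(X)` is irreducible
under the algebraic correspondences of degree `0` and the symmetries in `𝒢`. -/
structure IsConj (W : WeilCohomology.{u, v} ops) (𝒢 : Set (Sym W)) {X : 𝒱.Obj} (D : X.Cycles)
    (e : Module.End W.K (W.H X)) (P Q : ℚ[X]) : Prop where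
  alg : ∃ z, (X.prod X).IsCyc X.dim z ∧ EqMap e (corrC W z)
  comm : CommutesMul e (clC W D)
  sqf : Squarefree P
  conj : ConjOnRoots P Q
  adj : AdjOn ⊤ (fun a => W.tr X a) 1 e P Q
  irr : ∀ i, IrrKer (W.gr X i) (opers W 𝒢 X) e

/-- The variety `X` *has a conjugation*: there are `D`, `e`, `P`, `Q` as in `LefschetzType` and
`IsConj`. -/
def HasConj (W : WeilCohomology.{u, v} ops) (𝒢 : Set (Sym W)) (X : 𝒱.Obj) : Prop :=
  ∃ D : X.Cycles, LefschetzType W X D ∧ ∃ e P Q, IsConj W 𝒢 D e P Q

/-- The endomorphism `f` of `X` is like the Frobenius endomorphism relative to the field with `q`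
elements, and the Tate conjecture holds for the endomorphisms of the cohomology of `X`: `f` multiplies
the class of the divisor `D` by `q`; on `H^i(X)` it is annihilated by a squarefree polynomial with
rational coefficients the complex roots of which have absolute value `q ^ (i / 2)` (Frobenius is
semisimple, and the Riemann hypothesis); and all operators on `H^i(X)` which commute with it are
linear combinations of algebraic correspondences. -/
structure IsTateFrobenius (W : WeilCohomology.{u, v} ops) {X : 𝒱.Obj} (D : X.Cycles) (f : X ⟶ X)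
    (q : ℕ) : Prop where
  one_lt : 1 < q
  div : pullC W f (clC W D) = (q : W.K) • clC W D
  weil : ∀ i, ∃ P, WeilOn (W.gr X i) (pullE W f) P (q ^ i)
  tate : ∀ i, CommutantSpanned (W.gr X i) (pullE W f) (opers W ∅ X)

/-- The product `X ^ n × Y`. -/
@[reducible] noncomputable def powTimes (X Y : 𝒱.Obj) : ℕ → 𝒱.Obj
  | 0 => Y
  | n + 1 => X.prod (powTimes X Y n)

/-- Some member of `𝒴` has a zero-cycle of nonzero degree. -/
def HasZeroCycle (𝒴 : Set 𝒱.Obj) : Prop :=
  ∃ Y ∈ 𝒴, ∃ w : Y.Cycles, Y.IsCyc Y.dim w ∧ Y.V.degCycle w ≠ 0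

/-- The cycles of codimension `j` on `X` *specialize* to `X₀` (a variety over another field): for
finitely many cycles of codimension `j` on `X` there are cycles of codimension `j` on `X₀` and a
homomorphism of the coefficient fields such that the linear relations between the classes of the
former are the same as those between the classes of the latter. For instance `X₀` is the special
fibre of a smooth projective family with generic fibre `X`. -/
def Specializes {k₀ : Type u'} [Field k₀] {𝒱₀ : VarClass k₀} {ops₀ : CycleOps 𝒱₀}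
    (W : WeilCohomology.{u, v} ops) (W₀ : WeilCohomology.{u', v'} ops₀)
    (X : 𝒱.Obj) (X₀ : 𝒱₀.Obj) (j : ℕ) : Prop :=
  ∀ (r : ℕ) (z : Fin r → X.Cycles), (∀ i, X.IsCyc j (z i)) →
    ∃ (s : W.K →+* W₀.K) (z₀ : Fin r → X₀.Cycles), (∀ i, X₀.IsCyc j (z₀ i)) ∧
      RelationsIff s (fun i => clC W (z i)) (fun i => clC W₀ (z₀ i)) fun x => x = 0

/-- The cycles of codimension `j` on `X` specialize to a variety, over any field, for which the
conjecture D or the injectivity conjecture is true in codimension `j`. -/
def GoodReduction (W : WeilCohomology.{u, v} ops) (X : 𝒱.Obj) (j : ℕ) : Prop :=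
  ∃ (k₀ : Type u') (_ : Field k₀) (𝒱₀ : VarClass k₀) (ops₀ : CycleOps 𝒱₀)
    (W₀ : WeilCohomology.{u', v'} ops₀) (X₀ : 𝒱₀.Obj), Specializes W W₀ X X₀ j ∧
      (HomNumAt W₀ X₀ j ∨ TateInjective W₀ X₀ j)

end Run7.h152.PC
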