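import Pool.Agent.Run7.h152.PC.Bridge
import Pool.Agent.Run7.h152.PC.Comm
import Pool.Agent.H914R2.GFrob
import Mathlib.RingTheory.Radical.Basic
import Mathlib.FieldTheory.IsAlgClosed.Basic

/-!
# Varieties over finite fields with the Tate conjecture for endomorphisms have a conjugation
-/

set_option autoImplicit false

open CategoryTheory AlgebraicGeometry Polynomial

universe u v

namespace Run7.h152.PC

open Pool.Agent.H914 Pool.Agent.H914.VarClass Pool.Agent.H914.VarClass.Obj
  Pool.Agent.H914.WeilCohomology Pool.Agent.R908 Run7.h152.LI Run7.h152.DR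
  UniqueFactorizationMonoid

section Poly

/-- The polynomial with the roots divided by `c`. -/
noncomputable def scal (c : ℚ) (P : ℚ[X]) : ℚ[X] := P.comp (C c * X)

lemma scal_root {c : ℚ} {P : ℚ[X]} {z : ℂ} : aeval z (scal c P) = aeval ((c : ℂ) * z) P := by
  rw [scal, aeval_comp, map_mul, aeval_C, aeval_X]
  rfl

lemma scal_squarefree {c : ℚ} (hc : c ≠ 0) {P : ℚ[X]} (hP : Squarefree P) :
    Squarefree (scal c P) := by
  have hs : P.Separable := PerfectField.separable_iff_squarefree.2 hP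
  refine PerfectField.separable_iff_squarefree.1 ?_
  obtain ⟨a, b, hab⟩ := hs
  refine ⟨a.comp (C c * X), C c⁻¹ * b.comp (C c * X), ?_⟩
  have h1 : derivative (scal c P) = C c * (derivative P).comp (C c * X) := by
    rw [scal, derivative_comp, derivative_mul, derivative_C, zero_mul, zero_add, derivative_X,
      mul_one]
  have h2 := congrArg (fun R : ℚ[X] => R.comp (C c * X)) hab
  simp only [add_comp, mul_comp, one_comp] at h2
  rw [h1, scal, ← h2]
  have h3 : C c⁻¹ * C c = (1 : ℚ[X]) := by rw [← C_mul, inv_mul_cancel₀ hc, C_1]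
  linear_combination (b.comp (C c * X) * (derivative P).comp (C c * X)) * h3

/-- The conjugation as a polynomial. -/
theorem exists_conjPoly (q N : ℕ) (hq : 1 < q) (P : ℕ → ℚ[X]) (hP : ∀ i, Squarefree (P i))
    (hz : ∀ i, ∀ z : ℂ, aeval z (P i) = 0 → ‖z‖ ^ 2 = ((q ^ i : ℕ) : ℝ)) :
    ∃ R Q : ℚ[X], Squarefree R ∧ (∀ i < N, scal ((q : ℚ) ^ (i / 2)) (P i) ∣ R) ∧
      ConjOnRoots R Q ∧
      ∀ i < N, scal ((q : ℚ) ^ (i / 2)) (P i) ∣ X * Q - C ((q : ℚ) ^ (i % 2)) := by
  classical
  have hq0 : (q : ℚ) ≠ 0 := by exact_mod_cast (by omega : q ≠ 0)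
  have hq0' : (q : ℝ) ≠ 0 := by exact_mod_cast (by omega : q ≠ 0)
  set S : ℕ → ℚ[X] := fun i => scal ((q : ℚ) ^ (i / 2)) (P i) with hS
  have hSsq : ∀ i, Squarefree (S i) := fun i => scal_squarefree (pow_ne_zero _ hq0) (hP i)
  have hSz : ∀ i, ∀ z : ℂ, aeval z (S i) = 0 → ‖z‖ ^ 2 = (q : ℝ) ^ (i % 2) := by
    intro i z hz'
    rw [hS, scal_root] at hz'
    have h1 := hz i _ hz'
    rw [norm_mul, mul_pow] at h1
    have h2 : ‖(((q : ℚ) ^ (i / 2) : ℚ) : ℂ)‖ = (q : ℝ) ^ (i / 2) := by
      push_cast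
      rw [norm_pow, Complex.norm_natCast]
    rw [h2, ← pow_mul] at h1
    have h3 : (q : ℝ) ^ (i / 2 * 2) ≠ 0 := pow_ne_zero _ hq0'
    apply mul_left_cancel₀ h3
    rw [h1, ← pow_add]
    push_cast
    congr 1
    omega
  -- the even and the odd part
  set Ev : ℚ[X] := ∏ i ∈ (Finset.range N).filter (fun i => i % 2 = 0), S i with hEv
  set Od : ℚ[X] := ∏ i ∈ (Finset.range N).filter (fun i => i % 2 = 1), S i with hOd
  have hEv0 : Ev ≠ 0 := Finset.prod_ne_zero_iff.2 fun i _ => (hSsq i).ne_zero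
  have hOd0 : Od ≠ 0 := Finset.prod_ne_zero_iff.2 fun i _ => (hSsq i).ne_zero
  have hroot : ∀ (T : ℚ[X]) {z : ℂ}, aeval z (radical T) = 0 → aeval z T = 0 := by
    intro T z hz'
    obtain ⟨U, hU⟩ := radical_dvd_self (a := T)
    rw [hU, map_mul, hz', zero_mul]
  have hEvz : ∀ z : ℂ, aeval z (radical Ev) = 0 → ‖z‖ ^ 2 = 1 := by
    intro z hz'
    have h1 := hroot Ev hz'
    rw [hEv, map_prod, Finset.prod_eq_zero_iff] at h1
    obtain ⟨i, hi, hi'⟩ := h1
    rw [hSz i z hi', (Finset.mem_filter.1 hi).2, pow_zero]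
  have hOdz : ∀ z : ℂ, aeval z (radical Od) = 0 → ‖z‖ ^ 2 = q := by
    intro z hz'
    have h1 := hroot Od hz'
    rw [hOd, map_prod, Finset.prod_eq_zero_iff] at h1
    obtain ⟨i, hi, hi'⟩ := h1
    rw [hSz i z hi', (Finset.mem_filter.1 hi).2, pow_one]
  have hcop : IsCoprime (radical Ev) (radical Od) := by
    refine (Polynomial.isCoprime_iff_aeval_ne_zero_of_isAlgClosed (k := ℚ) ℂ _ _).2 fun z => ?_
    by_contra hcon
    push Not at hcon
    have h1 := (hEvz z hcon.1).symm.trans (hOdz z hcon.2)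
    have h2 : (1 : ℝ) < q := by exact_mod_cast hq
    linarith
  have hcopX : IsCoprime (X : ℚ[X]) (radical Ev * radical Od) := by
    refine (Polynomial.isCoprime_iff_aeval_ne_zero_of_isAlgClosed (k := ℚ) ℂ _ _).2 fun z => ?_
    by_contra hcon
    push Not at hcon
    have h1 : z = 0 := by simpa using hcon.1
    have h2 := hcon.2
    rw [map_mul, mul_eq_zero] at h2
    subst h1
    rcases h2 with h2 | h2
    · have := hEvz 0 h2
      norm_num at this
    · have := hOdz 0 h2
      rw [norm_zero, zero_pow two_ne_zero] at this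
      exact hq0' this.symm
  have hrad : ∀ {T : ℚ[X]} {i : ℕ}, T ≠ 0 → S i ∣ T → S i ∣ radical T := by
    intro T i hT hdvd
    exact (dvd_radical_iff (hSsq i).isRadical hT).2 hdvd
  have hSR : ∀ i < N, (i % 2 = 0 ∧ S i ∣ radical Ev) ∨ (i % 2 = 1 ∧ S i ∣ radical Od) := by
    intro i hi
    rcases Nat.mod_two_eq_zero_or_one i with h | h
    · exact Or.inl ⟨h, hrad hEv0 (Finset.dvd_prod_of_mem S
        (Finset.mem_filter.2 ⟨Finset.mem_range.2 hi, h⟩))⟩
    · exact Or.inr ⟨h, hrad hOd0 (Finset.dvd_prod_of_mem S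
        (Finset.mem_filter.2 ⟨Finset.mem_range.2 hi, h⟩))⟩
  obtain ⟨A, B, hAB⟩ := hcopX
  obtain ⟨U, V, hUV⟩ := hcop
  set Q : ℚ[X] := A * (V * radical Od + C (q : ℚ) * (U * radical Ev)) with hQ
  have hQE : ∀ z : ℂ, aeval z (radical Ev) = 0 → z * aeval z Q = 1 := by
    intro z hz'
    have h1 := congrArg (aeval z) hUV
    have h2 := congrArg (aeval z) hAB
    simp only [map_add, map_mul, hz', mul_zero, zero_add, map_one, aeval_X, zero_mul,
      add_zero] at h1 h2
    rw [hQ]
    simp only [map_add, map_mul, hz', mul_zero, h1, add_zero, mul_one]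
    rw [mul_comm]
    exact h2
  have hQO : ∀ z : ℂ, aeval z (radical Od) = 0 → z * aeval z Q = q := by
    intro z hz'
    have h1 := congrArg (aeval z) hUV
    have h2 := congrArg (aeval z) hAB
    simp only [map_add, map_mul, hz', mul_zero, zero_add, map_one, aeval_X, zero_mul,
      add_zero] at h1 h2
    rw [hQ]
    simp only [map_add, map_mul, hz', mul_zero, h1, zero_add, mul_one, aeval_C]
    rw [← mul_assoc, mul_comm z, h2, one_mul]
    simp
  have hconj : ∀ z : ℂ, z * starRingEnd ℂ z = ((‖z‖ ^ 2 : ℝ) : ℂ) := by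
    intro z
    rw [Complex.mul_conj, Complex.normSq_eq_norm_sq]
  have hz0 : ∀ z : ℂ, ‖z‖ ^ 2 ≠ 0 → z ≠ 0 := by
    rintro z hz' rfl
    exact hz' (by simp)
  refine ⟨radical Ev * radical Od, Q, ?_, ?_, ?_, ?_⟩
  · rw [squarefree_mul_iff]
    exact ⟨IsCoprime.isRelPrime ⟨U, V, hUV⟩, squarefree_radical, squarefree_radical⟩
  · intro i hi
    rcases hSR i hi with ⟨-, h⟩ | ⟨-, h⟩
    · exact Dvd.dvd.mul_right h _
    · exact Dvd.dvd.mul_left h _
  · intro z hz'
    rw [map_mul, mul_eq_zero] at hz'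
    rcases hz' with h | h
    · have hne : z ≠ 0 := hz0 z (by rw [hEvz z h]; exact one_ne_zero)
      apply mul_left_cancel₀ hne
      rw [hQE z h, hconj, hEvz z h]
      norm_num
    · have hne : z ≠ 0 := hz0 z (by rw [hOdz z h]; exact hq0')
      apply mul_left_cancel₀ hne
      rw [hQO z h, hconj, hOdz z h]
      norm_num
  · intro i hi
    refine dvd_of_roots (E := ℂ) (hSsq i) fun z hz' => ?_
    rw [map_sub, map_mul, aeval_X, aeval_C, sub_eq_zero]
    rcases hSR i hi with ⟨h, hd⟩ | ⟨h, hd⟩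
    · obtain ⟨T, hT⟩ := hd
      rw [hQE z (by rw [hT, map_mul, hz', zero_mul]), h, pow_zero, map_one]
    · obtain ⟨T, hT⟩ := hd
      rw [hQO z (by rw [hT, map_mul, hz', zero_mul]), h, pow_one]
      simp

end Poly

section Lin

variable {K : Type*} [Field K] [CharZero K] {B : Type*} [Ring B] [Algebra K B]

lemma evalQ_add (P Q : ℚ[X]) (e : Module.End K B) : evalQ (P + Q) e = evalQ P e + evalQ Q e := by
  rw [evalQ, evalQ, evalQ, Polynomial.map_add, map_add]

lemma evalQ_sub (P Q : ℚ[X]) (e : Module.End K B) : evalQ (P - Q) e = evalQ P e - evalQ Q e := by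
  rw [evalQ, evalQ, evalQ, Polynomial.map_sub, map_sub]

lemma evalQ_mul (P Q : ℚ[X]) (e : Module.End K B) : evalQ (P * Q) e = evalQ P e * evalQ Q e := by
  rw [evalQ, evalQ, evalQ, Polynomial.map_mul, map_mul]

lemma evalQ_C (c : ℚ) (e : Module.End K B) (x : B) : evalQ (C c) e x = (c : K) • x := by
  rw [evalQ, Polynomial.map_C, aeval_C, Module.algebraMap_end_apply]
  rfl

lemma evalQ_X (e : Module.End K B) : evalQ X e = e := by
  rw [evalQ, Polynomial.map_X, aeval_X]

lemma evalQ_mem {G : Submodule K B} {e : Module.End K B} (he : ∀ x ∈ G, e x ∈ G) (P : ℚ[X]) :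
    ∀ x ∈ G, evalQ P e x ∈ G := by
  induction P using Polynomial.induction_on' with
  | add p q hp hq =>
    intro x hx
    rw [evalQ_add]
    exact G.add_mem (hp x hx) (hq x hx)
  | monomial n a =>
    induction n with
    | zero =>
      intro x hx
      rw [monomial_zero_left, evalQ_C]
      exact G.smul_mem _ hx
    | succ n ih =>
      intro x hx
      rw [← monomial_mul_X, evalQ_mul, evalQ_X]
      exact ih _ (he x hx)

lemma evalQ_zero_of_dvd {e : Module.End K B} {P Q : ℚ[X]} (h : P ∣ Q) {x : B}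
    (hx : evalQ P e x = 0) : evalQ Q e x = 0 := by
  obtain ⟨R, rfl⟩ := h
  rw [mul_comm, evalQ_mul, Module.End.mul_apply, hx, map_zero]

lemma evalQ_scal {G : Submodule K B} {e F : Module.End K B} {c : ℚ} (hF : ∀ x ∈ G, F x ∈ G)
    (he : ∀ x ∈ G, (c : K) • e x = F x) (P : ℚ[X]) :
    ∀ x ∈ G, evalQ (scal c P) e x = evalQ P F x := by
  induction P using Polynomial.induction_on' with
  | add p q hp hq =>
    intro x hx
    have h1 : scal c (p + q) = scal c p + scal c q := by rw [scal, scal, scal, add_comp]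
    rw [h1, evalQ_add, evalQ_add, LinearMap.add_apply, LinearMap.add_apply, hp x hx, hq x hx]
  | monomial n a =>
    induction n with
    | zero =>
      intro x hx
      rw [monomial_zero_left, scal, C_comp, evalQ_C, evalQ_C]
    | succ n ih =>
      intro x hx
      have h1 : scal c (monomial (n + 1) a) = scal c (monomial n a) * (C c * X) := by
        rw [← monomial_mul_X, scal, scal, mul_comp, X_comp]
      rw [h1, evalQ_mul, ← monomial_mul_X, evalQ_mul, evalQ_mul, evalQ_X, evalQ_X,
        Module.End.mul_apply, Module.End.mul_apply, Module.End.mul_apply, evalQ_C, he x hx]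
      exact ih _ (hF x hx)

end Lin

section Op

variable {k : Type u} [Field k] {𝒱 : VarClass k} {ops : CycleOps 𝒱}
  {W : WeilCohomology.{u, v} ops} {X : 𝒱.Obj} {𝒢 : Set (Sym W)} {D : X.Cycles} {f : X ⟶ X} {q : ℕ}

/-- The Frobenius endomorphism, divided by `q ^ ⌊i / 2⌋` on `H^i(X)`. -/
noncomputable def normFrob (W : WeilCohomology.{u, v} ops) {X : 𝒱.Obj} (f : X ⟶ X) (q : ℕ) :
    Module.End W.K (W.H X) :=
  ∑ i ∈ Finset.range (2 * X.dim + 1),
    ((((q : ℚ) ^ (i / 2))⁻¹ : ℚ) : W.K) • (pullE W f * proj (W.isInternal X) i)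

lemma normFrob_apply {i : ℕ} {x : W.H X} (hx : x ∈ W.gr X i) :
    normFrob W f q x = ((q : W.K) ^ (i / 2))⁻¹ • W.map f x := by
  by_cases hi : i < 2 * X.dim + 1
  · rw [normFrob, LinearMap.sum_apply, Finset.sum_eq_single i]
    · rw [LinearMap.smul_apply, Module.End.mul_apply, proj_same _ hx]
      push_cast
      rfl
    · intro j _ hj
      rw [LinearMap.smul_apply, Module.End.mul_apply, proj_ne _ hx (Ne.symm hj), map_zero,
        smul_zero]
    · intro h
      exact absurd (Finset.mem_range.2 hi) h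
  · have h0 : x = 0 := by
      rw [W.gr_eq_bot X i (by omega), Submodule.mem_bot] at hx
      exact hx
    rw [h0, map_zero, map_zero, smul_zero]

lemma normFrob_mem {i : ℕ} {x : W.H X} (hx : x ∈ W.gr X i) : normFrob W f q x ∈ W.gr X i := by
  rw [normFrob_apply hx]
  exact Submodule.smul_mem _ _ (W.map_mem f hx)

lemma smul_normFrob (hq : 1 < q) {i : ℕ} {x : W.H X} (hx : x ∈ W.gr X i) :
    (q : W.K) ^ (i / 2) • normFrob W f q x = W.map f x := by
  have hq0 : (q : W.K) ^ (i / 2) ≠ 0 := pow_ne_zero _ (by exact_mod_cast (by omega : q ≠ 0))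
  rw [normFrob_apply hx, smul_smul, mul_inv_cancel₀ hq0, one_smul]

lemma normFrob_rop (hL : LefschetzType W X D) : ROp W X 0 (normFrob W f q) := by
  obtain ⟨Λ, hΛ, hLam⟩ := lefschetzB_iff_rop.1 hL.lefschetzB
  have hproj : ∀ i, ROp W X 0 (proj (W.isInternal X) i) := fun i =>
    rop_opAlg.proj_mem (W.isInternal X) W_hbd (rop_mulLeft hL.div) hL.hardLefschetz hΛ hLam i
  refine rop_opAlg.sum fun i _ => rop_opAlg.smul _ ?_
  exact rop_opAlg.cast (rop_opAlg.mul (rop_map f) (hproj i)) (by ring)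

/-- Frobenius multiplies the orientation by `q ^ dim X`. -/
lemma tr_map (hL : LefschetzType W X D) (h : IsTateFrobenius W D f q) (w : W.H X) :
    W.tr X (W.map f w) = (q : W.K) ^ X.dim * W.tr X w := by
  refine gr_induction (W.isInternal X) (p := fun w => W.tr X (W.map f w) =
    (q : W.K) ^ X.dim * W.tr X w) ?_ ?_ w
  · intro i a ha
    by_cases hi : i = 2 * X.dim
    · subst hi
      obtain ⟨b, hb, rfl⟩ := (hL.lef 0 (Nat.zero_le _)).2 a ha
      rw [W.gr_zero, Submodule.mem_span_singleton] at hb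
      obtain ⟨t, rfl⟩ := hb
      have h1 : W.map f (clC W D) = (q : W.K) • clC W D := h.div
      rw [map_mul, map_pow, h1, map_smul, map_one, Nat.sub_zero, _root_.smul_pow, smul_mul_assoc,
        map_smul, smul_eq_mul]
    · rw [W.tr_eq_zero (W.map_mem f ha) hi, W.tr_eq_zero ha hi, mul_zero]
  · intro a b ha hb
    rw [map_add, map_add, map_add, ha, hb, mul_add]

/-- **Varieties over finite fields have a conjugation**, if the conjecture of Lefschetz type, the
semisimplicity of Frobenius and the Tate conjecture for the endomorphisms of the cohomology are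
true. -/
theorem hasConj_of_frobenius (hL : LefschetzType W X D) (h : IsTateFrobenius W D f q) :
    HasConj W 𝒢 X := by
  choose P hP using h.weil
  obtain ⟨R, Q, hR, hSR, hconj, hSQ⟩ := exists_conjPoly q (2 * X.dim + 1) h.one_lt P
    (fun i => (hP i).1.1) (fun i => (hP i).1.2)
  have hq0 : (q : W.K) ≠ 0 := by exact_mod_cast (by have := h.one_lt; omega : q ≠ 0)
  set e := normFrob W f q with he
  have hegr : ∀ i, ∀ x ∈ W.gr X i, e x ∈ W.gr X i := fun i x hx => normFrob_mem hx
  have hz : ∀ i, ∀ x ∈ W.gr X i, evalQ (scal ((q : ℚ) ^ (i / 2)) (P i)) e x = 0 := by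
    intro i x hx
    rw [evalQ_scal (G := W.gr X i) (F := pullE W f) (fun x hx => W.map_mem f hx)
      (fun x hx => ?_) (P i) x hx]
    · exact (hP i).2 x hx
    · push_cast
      exact smul_normFrob h.one_lt hx
  have hlt : ∀ i, ∀ x ∈ W.gr X i, x ≠ 0 → i < 2 * X.dim + 1 := by
    intro i x hx hx0
    by_contra hi
    rw [W.gr_eq_bot X i (by omega), Submodule.mem_bot] at hx
    exact hx0 hx
  have hQgr : ∀ i, ∀ x ∈ W.gr X i, evalQ Q e x ∈ W.gr X i := fun i => evalQ_mem (hegr i) Q
  have heQ : ∀ i, ∀ x ∈ W.gr X i, e (evalQ Q e x) = (q : W.K) ^ (i % 2) • x := by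
    intro i x hx
    by_cases hx0 : x = 0
    · rw [hx0, map_zero, map_zero, smul_zero]
    have h1 := evalQ_zero_of_dvd (hSQ i (hlt i x hx hx0)) (hz i x hx)
    rw [evalQ_sub, evalQ_mul, evalQ_X, LinearMap.sub_apply, Module.End.mul_apply, evalQ_C,
      sub_eq_zero] at h1
    rw [h1]
    push_cast
    rfl
  refine ⟨D, hL, e, R, Q, ?_, ?_, hR, hconj, ⟨?_, ?_⟩, ?_⟩
  · obtain ⟨z, hz, he'⟩ := PW.rop_rat (normFrob_rop (f := f) (q := q) hL)
    exact ⟨z, hz, fun a => by rw [← corrC_eq, he']⟩
  · intro a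
    refine gr_induction (W.isInternal X) (p := fun a => e (clC W D * a) = clC W D * e a) ?_ ?_ a
    · intro i a ha
      have hD : clC W D ∈ W.gr X 2 := W.cl_mem hL.div
      have h1 : W.map f (clC W D) = (q : W.K) • clC W D := h.div
      rw [he, normFrob_apply ha, normFrob_apply (W.mul_mem hD ha), map_mul, h1,
        show (2 + i) / 2 = i / 2 + 1 by omega, smul_mul_assoc, smul_smul, mul_smul_comm, pow_succ,
        mul_inv, mul_assoc, inv_mul_cancel₀ hq0, mul_one]
    · intro a b ha hb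
      rw [mul_add, map_add, ha, hb, map_add, mul_add]
  · intro x _
    refine gr_induction (W.isInternal X) (p := fun x => evalQ R e x = 0) ?_ ?_ x
    · intro i a ha
      by_cases ha0 : a = 0
      · rw [ha0, map_zero]
      exact evalQ_zero_of_dvd (hSR i (hlt i a ha ha0)) (hz i a ha)
    · intro a b ha hb
      rw [map_add, ha, hb, add_zero]
  · intro x _ y _
    rw [one_mul, one_mul]
    change W.tr X (e x * y) = W.tr X (x * evalQ Q e y)
    refine gr_induction (W.isInternal X) (p := fun x => W.tr X (e x * y) =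
      W.tr X (x * evalQ Q e y)) ?_ ?_ x
    · intro i a ha
      refine gr_induction (W.isInternal X) (p := fun y => W.tr X (e a * y) =
        W.tr X (a * evalQ Q e y)) ?_ ?_ y
      · intro j b hb
        by_cases hij : i + j = 2 * X.dim
        · have h1 : (q : W.K) ^ (j % 2) * W.tr X (e a * b) =
              (q : W.K) ^ (j % 2) * W.tr X (a * evalQ Q e b) := by
            rw [← smul_eq_mul, ← map_smul, ← mul_smul_comm, ← heQ j b hb]
            rw [he, normFrob_apply ha, normFrob_apply (hQgr j b hb), smul_mul_assoc,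
              mul_smul_comm, ← map_mul, map_smul, map_smul, tr_map hL h, smul_eq_mul, smul_eq_mul,
              ← mul_assoc, ← mul_assoc]
            congr 1
            rw [← mul_inv, ← pow_add, inv_mul_eq_iff_eq_mul₀ (pow_ne_zero _ hq0), ← pow_add]
            congr 1
            omega
          exact mul_left_cancel₀ (pow_ne_zero _ hq0) h1
        · rw [W.tr_eq_zero (W.mul_mem (hegr i a ha) hb) hij,
            W.tr_eq_zero (W.mul_mem ha (hQgr j b hb)) hij]
      · intro b c hb hc
        rw [mul_add, map_add, hb, hc, map_add, mul_add, map_add]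
    · intro a b ha hb
      rw [map_add, add_mul, map_add, ha, hb, add_mul, map_add]
  · intro i g hg U hU hst hex y hy hgy
    obtain ⟨x, hx, hx0, hgx⟩ := hex
    have hsq : Squarefree ((scal ((q : ℚ) ^ (i / 2)) (P i)).map (algebraMap ℚ W.K)) := by
      have h1 : (scal ((q : ℚ) ^ (i / 2)) (P i)).Separable :=
        PerfectField.separable_iff_squarefree.2 (scal_squarefree (pow_ne_zero _
          (by exact_mod_cast (by have := h.one_lt; omega : q ≠ 0))) (hP i).1.1)
      exact (h1.map (f := algebraMap ℚ W.K)).squarefree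
    obtain ⟨φ, hφ, hφx⟩ := exists_commuting (W.gr X i) e (hegr i) hsq (hz i) hg (hU hx) hx0 hgx
      hy hgy
    obtain ⟨r, c, g', hg', hcomb⟩ := h.tate i φ fun a ha => by
      refine ⟨(hφ a ha).1, ?_⟩
      have h1 := (hφ a ha).2
      change φ (W.map f a) = W.map f (φ a)
      rw [← smul_normFrob h.one_lt ha, ← smul_normFrob h.one_lt (hφ a ha).1, map_smul]
      exact congrArg _ h1
    rw [← hφx, hcomb x (hU hx), comb]
    refine Submodule.sum_mem _ fun l _ => Submodule.smul_mem _ _ ?_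
    refine hst _ ?_ x hx
    rcases hg' l with hl | ⟨S, hS, -⟩
    · exact Or.inl hl
    · exact absurd hS (Set.notMem_empty S)

end Op

end Run7.h152.PC
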